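import Pool.Agent.H30.M3.Defs

/-!
# The limit system of the mod three family: bounds on a window after a quasi record
-/

namespace Pool.Agent.H30.M3

variable {a0 a1 a4 b0 b1 : ℝ} {p q : ℕ → ℝ}

/-- the upper bound of `q` -/
noncomputable def Zm (a1 a4 b0 b1 : ℝ) : ℝ := a1 / (b0 + b1) + a4

/-- the upper bound of `F` -/
noncomputable def Fm (a1 a4 b0 b1 : ℝ) : ℝ := b0 + (b1 + 1) * Zm a1 a4 b0 b1

theorem Good.zm_pos (g : Good a0 a1 a4 b0 b1) : 0 < Zm a1 a4 b0 b1 := by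
  have h1 := g.a1n
  have h2 := g.a4n
  have h3 := g.bp
  unfold Zm
  rcases g.ap with h | h
  · have := div_pos h h3
    linarith
  · have := div_nonneg h1 h3.le
    linarith

theorem Good.fm_pos (g : Good a0 a1 a4 b0 b1) : 0 < Fm a1 a4 b0 b1 := by
  have h1 := g.zm_pos
  have h2 := g.b0n
  have h3 := g.b1n
  unfold Fm
  positivity

theorem PQ.E_gt (g : Good a0 a1 a4 b0 b1) (h : PQ a0 a1 a4 b0 b1 p q) (k : ℕ) : b0 < b0 + b1 * p k + p (k + 1) := by
  have h1 := mul_nonneg g.b1n (h.pp k).le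
  have h2 := h.pp (k + 1)
  linarith

theorem PQ.q_le (g : Good a0 a1 a4 b0 b1) (h : PQ a0 a1 a4 b0 b1 p q) (k : ℕ) : q k ≤ Zm a1 a4 b0 b1 := by
  have e := h.e3 k
  have hE := h.E_gt g (k + 1)
  have e1 : k + 1 + 1 = k + 2 := rfl
  rw [e1] at hE
  set E := b0 + b1 * p (k + 1) + p (k + 2) with hEdef
  have h0 := g.b0n
  have h1 := g.b1n
  have hp : 0 < b1 + E := by have := g.bp; linarith
  have hZ : a1 + a4 * E ≤ Zm a1 a4 b0 b1 * (b1 + E) := by
    unfold Zm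
    have e2 : (a1 / (b0 + b1) + a4) * (b1 + E) = a1 + a4 * E + a4 * b1 + a1 / (b0 + b1) * (E - b0) := by
      have := g.bp.ne'
      field_simp
      ring
    rw [e2]
    have i1 := mul_nonneg g.a4n h1
    have i2 := mul_nonneg (div_nonneg g.a1n g.bp.le) (show 0 ≤ E - b0 by linarith)
    linarith
  rw [← e] at hZ
  exact le_of_mul_le_mul_right hZ hp

theorem PQ.F_le (g : Good a0 a1 a4 b0 b1) (h : PQ a0 a1 a4 b0 b1 p q) (k : ℕ) :
    b0 + b1 * q k + q (k + 1) ≤ Fm a1 a4 b0 b1 := by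
  have h1 := h.q_le g k
  have h2 := h.q_le g (k + 1)
  have h3 := mul_le_mul_of_nonneg_left h1 g.b1n
  unfold Fm
  linarith

theorem PQ.F_pos (g : Good a0 a1 a4 b0 b1) (h : PQ a0 a1 a4 b0 b1 p q) (k : ℕ) :
    0 < b0 + b1 * q k + q (k + 1) := by
  have h1 := mul_nonneg g.b1n (h.qp k).le
  have h2 := h.qp (k + 1)
  have h3 := g.b0n
  linarith

/-- the next term is at most `Fm` times the term -/
theorem PQ.p_succ_le (g : Good a0 a1 a4 b0 b1) (h : PQ a0 a1 a4 b0 b1 p q) (k : ℕ) :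
    p (k + 1) ≤ Fm a1 a4 b0 b1 * p k := by
  have e := h.e2 k
  have h1 := mul_le_mul_of_nonneg_left (h.F_le g k) (h.pp k).le
  have h2 := g.a0n
  have h3 := mul_nonneg g.a1n (h.qp k).le
  have h4 := mul_nonneg g.a4n (h.qp (k + 1)).le
  linarith

theorem PQ.p_le (g : Good a0 a1 a4 b0 b1) (h : PQ a0 a1 a4 b0 b1 p q) (h0 : p 0 ≤ 2) (k : ℕ) :
    p k ≤ 2 * Fm a1 a4 b0 b1 ^ k := by
  induction k with
  | zero => simpa using h0
  | succ k ih =>
    have h1 := h.p_succ_le g k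
    have h2 := mul_le_mul_of_nonneg_left ih g.fm_pos.le
    calc p (k + 1) ≤ Fm a1 a4 b0 b1 * (2 * Fm a1 a4 b0 b1 ^ k) := h1.trans h2
      _ = 2 * Fm a1 a4 b0 b1 ^ (k + 1) := by ring

/-- a lower bound of `p` at each time if `a₁ = b₀ = 0` -/
theorem PQ.p_ge_zero (g : Good a0 a1 a4 b0 b1) (h : PQ a0 a1 a4 b0 b1 p q) (ha1 : a1 = 0) (hb0 : b0 = 0) (k : ℕ) :
    1 / (a4 / b1 * (b1 + Fm a1 a4 b0 b1) ^ 2) ≤ p k := by
  have hb1 : 0 < b1 := by have := g.bp; rw [hb0] at this; linarith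
  have ha4 : 0 < a4 := by
    rcases g.ap with h1 | h1
    · rw [ha1] at h1; exact absurd h1 (lt_irrefl 0)
    · exact h1
  have hF := g.fm_pos
  -- `q_j ≤ (a₄ / b₁) (b₁ + Fm) p_(j+1)`
  have hq : ∀ j, q j ≤ a4 / b1 * (b1 + Fm a1 a4 b0 b1) * p (j + 1) := by
    intro j
    have e := h.e3 j
    have h1 := h.p_succ_le g (j + 1)
    have e1 : j + 1 + 1 = j + 2 := rfl
    rw [e1] at h1
    have hp1 := h.pp (j + 1)
    have hp2 := h.pp (j + 2)
    have hqj := h.qp j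
    rw [ha1, hb0] at e
    have h2 : q j * b1 ≤ a4 * (b1 * p (j + 1) + p (j + 2)) := by
      have : 0 ≤ q j * (b1 * p (j + 1) + p (j + 2)) := by positivity
      nlinarith
    have h3 : q j * b1 ≤ a4 * ((b1 + Fm a1 a4 b0 b1) * p (j + 1)) := by
      refine h2.trans (mul_le_mul_of_nonneg_left ?_ ha4.le)
      linarith
    calc q j = (q j * b1) / b1 := by field_simp
      _ ≤ (a4 * ((b1 + Fm a1 a4 b0 b1) * p (j + 1))) / b1 := by gcongr
      _ = a4 / b1 * (b1 + Fm a1 a4 b0 b1) * p (j + 1) := by ring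
  have e := h.e2 k
  have hF2 : b0 + b1 * q k + q (k + 1) ≤ a4 / b1 * (b1 + Fm a1 a4 b0 b1) ^ 2 * p (k + 1) := by
    have h1 := hq k
    have h2 := hq (k + 1)
    have h3 := h.p_succ_le g (k + 1)
    rw [hb0]
    have h4 := mul_le_mul_of_nonneg_left h1 hb1.le
    have hc : 0 ≤ a4 / b1 * (b1 + Fm a1 a4 b0 b1) := by positivity
    have h5 := mul_le_mul_of_nonneg_left h3 hc
    rw [hb0] at h4 h5 h2
    have e2 : a4 / b1 * (b1 + Fm a1 a4 0 b1) ^ 2 * p (k + 1) = b1 * (a4 / b1 * (b1 + Fm a1 a4 0 b1) * p (k + 1)) +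
      a4 / b1 * (b1 + Fm a1 a4 0 b1) * (Fm a1 a4 0 b1 * p (k + 1)) := by ring
    rw [e2]
    linarith
  have hp1 := h.pp (k + 1)
  have hC : 0 < a4 / b1 * (b1 + Fm a1 a4 b0 b1) ^ 2 := by positivity
  have h6 : p (k + 1) ≤ p k * (a4 / b1 * (b1 + Fm a1 a4 b0 b1) ^ 2 * p (k + 1)) := by
    have h7 := mul_le_mul_of_nonneg_left hF2 (h.pp k).le
    have h8 := g.a0n
    have h9 := mul_nonneg g.a1n (h.qp k).le
    have h10 := mul_nonneg g.a4n (h.qp (k + 1)).le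
    linarith
  have h7 : 1 ≤ p k * (a4 / b1 * (b1 + Fm a1 a4 b0 b1) ^ 2) := by
    have : 1 * p (k + 1) ≤ (p k * (a4 / b1 * (b1 + Fm a1 a4 b0 b1) ^ 2)) * p (k + 1) := by linarith
    exact le_of_mul_le_mul_right this hp1
  rw [div_le_iff₀ hC]
  exact h7

/-- the bounds on the window -/
theorem window (g : Good a0 a1 a4 b0 b1) (j : ℕ) : ∃ c C : ℝ, 0 < c ∧ ∀ p q : ℕ → ℝ, PQ a0 a1 a4 b0 b1 p q → p 0 ≤ 2 →
    (c ≤ p j ∧ p j ≤ C) ∧ (c ≤ q j ∧ q j ≤ C) := by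
  have hF := g.fm_pos
  have hZ := g.zm_pos
  have hb1 := g.b1n
  have hb0 := g.b0n
  -- the upper bound of `E^(j+1)`
  set E : ℕ → ℝ := fun i => b0 + b1 * (2 * Fm a1 a4 b0 b1 ^ i) + 2 * Fm a1 a4 b0 b1 ^ (i + 1) with hE
  have hEp : ∀ i, 0 < E i := fun i => by
    rw [hE]
    positivity
  have hEle : ∀ p q : ℕ → ℝ, PQ a0 a1 a4 b0 b1 p q → p 0 ≤ 2 → ∀ i, b0 + b1 * p i + p (i + 1) ≤ E i := by
    intro p q h h0 i
    have h1 := h.p_le g h0 i
    have h2 := h.p_le g h0 (i + 1)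
    have h3 := mul_le_mul_of_nonneg_left h1 hb1
    rw [hE]
    simp only
    linarith
  -- from a lower bound of `a₁ + a₄ E^(j+1)` at all times
  have hlow : ∀ m : ℕ → ℝ, (∀ i, 0 < m i) → (∀ p q : ℕ → ℝ, PQ a0 a1 a4 b0 b1 p q → p 0 ≤ 2 → ∀ i,
      m i ≤ a1 + a4 * (b0 + b1 * p (i + 1) + p (i + 2))) → ∀ i, ∃ c, 0 < c ∧ ∀ p q : ℕ → ℝ, PQ a0 a1 a4 b0 b1 p q →
      p 0 ≤ 2 → c ≤ q i := by
    intro m hm hml i
    refine ⟨m i / (b1 + E (i + 1)), div_pos (hm i) (by have := hEp (i + 1); linarith), fun p q h h0 => ?_⟩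
    rw [div_le_iff₀ (by have := hEp (i + 1); linarith)]
    have h1 := hml p q h h0 i
    rw [← h.e3 i] at h1
    refine h1.trans (mul_le_mul_of_nonneg_left ?_ (h.qp i).le)
    have := hEle p q h h0 (i + 1)
    linarith
  have hq : ∀ i, ∃ c, 0 < c ∧ ∀ p q : ℕ → ℝ, PQ a0 a1 a4 b0 b1 p q → p 0 ≤ 2 → c ≤ q i := by
    by_cases h1 : 0 < a1
    · refine hlow (fun _ => a1) (fun _ => h1) fun p q h h0 i => ?_
      have := mul_nonneg g.a4n (hb0.trans (h.E_gt g (i + 1)).le)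
      linarith
    · have ha1 : a1 = 0 := le_antisymm (not_lt.1 h1) g.a1n
      have ha4 : 0 < a4 := by
        rcases g.ap with h2 | h2
        · exact absurd h2 h1
        · exact h2
      by_cases h2 : 0 < b0
      · refine hlow (fun _ => a4 * b0) (fun _ => by positivity) fun p q h h0 i => ?_
        have := mul_le_mul_of_nonneg_left (h.E_gt g (i + 1)).le ha4.le
        rw [ha1]
        linarith
      · have hb0' : b0 = 0 := le_antisymm (not_lt.1 h2) hb0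
        have hb1' : 0 < b1 := by have := g.bp; rw [hb0'] at this; linarith
        refine hlow (fun _ => a4 * (b1 * (1 / (a4 / b1 * (b1 + Fm a1 a4 b0 b1) ^ 2)))) (fun _ => by positivity)
          fun p q h h0 i => ?_
        have h3 := h.p_ge_zero g ha1 hb0' (i + 1)
        have h4 := mul_le_mul_of_nonneg_left h3 hb1'.le
        have h5 := h.pp (i + 2)
        have h6 : b1 * (1 / (a4 / b1 * (b1 + Fm a1 a4 b0 b1) ^ 2)) ≤ b0 + b1 * p (i + 1) + p (i + 2) := by linarith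
        have h7 := mul_le_mul_of_nonneg_left h6 ha4.le
        have h8 := g.a1n
        linarith
  obtain ⟨c1, hc1, hc1'⟩ := hq j
  obtain ⟨c2, hc2, hc2'⟩ := hq (j + 1)
  have hG : ∃ c, 0 < c ∧ ∀ p q : ℕ → ℝ, PQ a0 a1 a4 b0 b1 p q → p 0 ≤ 2 → c ≤ a1 * q j + a4 * q (j + 1) := by
    refine ⟨a1 * c1 + a4 * c2, ?_, fun p q h h0 => ?_⟩
    · rcases g.ap with h1 | h1
      · have := mul_pos h1 hc1
        have := mul_nonneg g.a4n hc2.le
        linarith
      · have := mul_pos h1 hc2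
        have := mul_nonneg g.a1n hc1.le
        linarith
    · have i1 := mul_le_mul_of_nonneg_left (hc1' p q h h0) g.a1n
      have i2 := mul_le_mul_of_nonneg_left (hc2' p q h h0) g.a4n
      linarith
  obtain ⟨c3, hc3, hc3'⟩ := hG
  refine ⟨min c1 (c3 / Fm a1 a4 b0 b1), max (2 * Fm a1 a4 b0 b1 ^ j) (Zm a1 a4 b0 b1), lt_min hc1 (by positivity),
    fun p q h h0 => ⟨⟨(min_le_right _ _).trans ?_, (h.p_le g h0 j).trans (le_max_left _ _)⟩,
      ⟨(min_le_left _ _).trans (hc1' p q h h0), (h.q_le g j).trans (le_max_right _ _)⟩⟩⟩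
  rw [div_le_iff₀ hF]
  have e := h.e2 j
  have h1 := mul_le_mul_of_nonneg_left (h.F_le g j) (h.pp j).le
  have h2 := hc3' p q h h0
  have h3 := g.a0n
  have h4 := h.pp (j + 1)
  linarith

end Pool.Agent.H30.M3
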