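import Mathlib

/-!
# The limit system of the mod three family: definitions

Scaled to `a₃ = b₄ = 1`. In the notation of the paper proof (forward time `t = -k`): `p k = U`, `q k = Z`,
`E^k = b₀ + b₁ p k + p (k+1)`, `F^k = b₀ + b₁ q k + q (k+1)`.
-/

namespace Pool.Agent.H30.M3

/-- an orbit of the limit system on `ℕ` (backward in time) -/
structure PQ (a0 a1 a4 b0 b1 : ℝ) (p q : ℕ → ℝ) : Prop where
  pp : ∀ k, 0 < p k
  qp : ∀ k, 0 < q k
  e2 : ∀ k, p k * (b0 + b1 * q k + q (k + 1)) = a0 + a1 * q k + p (k + 1) + a4 * q (k + 1)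
  e3 : ∀ k, q k * (b1 + (b0 + b1 * p (k + 1) + p (k + 2))) = a1 + a4 * (b0 + b1 * p (k + 1) + p (k + 2))

/-- there is no orbit which is a record at time `0` -/
def NoSys (a0 a1 a4 b0 b1 : ℝ) : Prop := ∀ ρ p q : ℕ → ℝ, PQ a0 a1 a4 b0 b1 p q → ρ 0 = 1 → (∀ k, 0 < ρ k) →
  (∀ k, ρ k ≤ 1) → (∀ k, ρ k * (b0 + b1 * p k + p (k + 1)) = ρ (k + 1)) → False

/-- the parameters for which the abstract theorem holds (`family II`: `a4 = 0`, `family I`: `a1 = 0`) -/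
structure Good (a0 a1 a4 b0 b1 : ℝ) : Prop where
  a0n : 0 ≤ a0
  a1n : 0 ≤ a1
  a4n : 0 ≤ a4
  b0n : 0 ≤ b0
  b1n : 0 ≤ b1
  bp : 0 < b0 + b1
  ap : 0 < a1 ∨ 0 < a4

variable {a0 a1 a4 b0 b1 : ℝ} {p q : ℕ → ℝ}

theorem PQ.shift (h : PQ a0 a1 a4 b0 b1 p q) (n : ℕ) : PQ a0 a1 a4 b0 b1 (fun k => p (k + n)) (fun k => q (k + n)) where
  pp := fun k => h.pp _
  qp := fun k => h.qp _
  e2 := fun k => by
    have e := h.e2 (k + n)
    have e1 : k + 1 + n = k + n + 1 := by ring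
    simp only [e1]
    exact e
  e3 := fun k => by
    have e := h.e3 (k + n)
    have e1 : k + 1 + n = k + n + 1 := by ring
    have e2 : k + 2 + n = k + n + 2 := by ring
    simp only [e1, e2]
    exact e

end Pool.Agent.H30.M3
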