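import Pool.Agent.H30.M3.Reg

/-!
# Family I, potential `V = U / P`: reduction to a polynomial inequality
-/

namespace Pool.Agent.H30.M3

/-- the polynomial inequality on the critical curve `U r (1 + r) = b₀ (1 + r) + b₁` -/
def Pineq (a b0 b1 r s W : ℝ) : Prop :=
  r * b1 * a * (r * (1 + r) * (b0 + W) + b1 * (b0 * (1 + r) + b1)) * (b1 + (b0 + b1 * W)) ≤
    (b0 + b1) * (r * (1 + r) * b1 + (r * (1 + r) * (b0 + W) + b1 * (b0 * (1 + r) + b1))) * (b1 + (b0 + b1 * W)) +
      r * s * a * (b0 + b1 * W) * (r * (1 + r) * b1 + (r * (1 + r) * (b0 + W) + b1 * (b0 * (1 + r) + b1)))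

/-- the critical parameter -/
theorem exists_r {u b0 b1 : ℝ} (hu : 0 < u) (hb0 : 0 ≤ b0) (hb1 : 0 < b1) :
    ∃ r, 0 < r ∧ u * r * (1 + r) = b0 * (1 + r) + b1 := by
  set D := (u - b0) ^ 2 + 4 * u * (b0 + b1) with hD
  have hD0 : (u - b0) ^ 2 < D := by
    have : 0 < 4 * u * (b0 + b1) := by positivity
    linarith
  have h1 : |u - b0| < Real.sqrt D := by
    rw [← Real.sqrt_sq_eq_abs]
    exact Real.sqrt_lt_sqrt (sq_nonneg _) hD0
  have h2 := (abs_lt.1 h1)
  have h3 : Real.sqrt D ^ 2 = D := Real.sq_sqrt ((sq_nonneg _).trans hD0.le)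
  refine ⟨(Real.sqrt D - (u - b0)) / (2 * u), div_pos (by linarith [h2.2]) (by positivity), ?_⟩
  field_simp
  nlinarith [h3]

/-- **the reduction** -/
theorem F1_of_P {a b0 b1 : ℝ} (ha : 0 < a) (hb0 : 0 ≤ b0) (hb1 : 0 < b1)
    (hs : ∀ r, 0 < r → (1 + r) * a ≤ 1 → r * b1 * a + r * (1 - (1 + r) * a) * a < b0 + b1)
    (hP : ∀ r W, 0 < r → 0 < W → 1 < (1 + r) * a → Pineq a b0 b1 r ((1 + r) * a - 1) W)
    {a0 : ℝ} {p q : ℕ → ℝ} (ha0 : 0 ≤ a0) (h : PQ a0 0 a b0 b1 p q) : p 1 < p 0 * (b0 + b1 * p 0 + p 1) := by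
  have hv := h.pp 0
  have hu := h.pp 1
  have hw := h.pp 2
  have hr3 := h.pp 3
  have hy := h.qp 0
  have hz := h.qp 1
  have e0 := h.e2 0
  have e1 : q 0 * (b1 + (b0 + b1 * p 1 + p 2)) = 0 + a * (b0 + b1 * p 1 + p 2) := h.e3 0
  have e2 : q 1 * (b1 + (b0 + b1 * p 2 + p 3)) = 0 + a * (b0 + b1 * p 2 + p 3) := h.e3 1
  simp only [zero_add, zero_mul, add_zero] at e0 e1 e2
  generalize p 0 = v at *
  generalize p 1 = u at *
  generalize p 2 = w at *
  generalize p 3 = ρ at *
  generalize q 0 = y at *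
  generalize q 1 = z at *
  obtain ⟨r, hr, hcr⟩ := exists_r hu hb0 hb1
  -- it is enough that `v (1 + r) > 1`
  suffices hvr : 1 < v * (1 + r) by
    have h1 : (1 + r) ^ 2 * u = (b0 + u) * (1 + r) + b1 := by linear_combination hcr
    have h2 : u * (1 + r) ^ 2 < v * (b0 + b1 * v + u) * (1 + r) ^ 2 := by
      have h3 : v * (b0 + b1 * v + u) * (1 + r) ^ 2 = (v * (1 + r)) * ((b0 + u) * (1 + r)) + b1 * (v * (1 + r)) ^ 2 := by
        ring
      have h4 : (b0 + u) * (1 + r) < (v * (1 + r)) * ((b0 + u) * (1 + r)) := by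
        have : 0 < (b0 + u) * (1 + r) := by positivity
        nlinarith
      have h5 : b1 < b1 * (v * (1 + r)) ^ 2 := by
        have : 1 < (v * (1 + r)) ^ 2 := by nlinarith
        nlinarith
      rw [h3]
      linarith
    exact lt_of_mul_lt_mul_right h2 (by positivity)
  have hF : 0 < b0 + b1 * y + z := by positivity
  -- the linear inequality
  suffices hlin : r * b1 * y < (b0 + b1) + r * ((1 + r) * a - 1) * z by
    have h1 : r * (b0 + b1 * y + z) < r * ((1 + r) * (u + a * z)) := by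
      have : r * ((1 + r) * u) = b0 * (1 + r) + b1 := by linear_combination hcr
      nlinarith
    have h2 := lt_of_mul_lt_mul_left h1 hr.le
    have h3 : (b0 + b1 * y + z) < (v * (1 + r)) * (b0 + b1 * y + z) := by
      have h4 : (v * (1 + r)) * (b0 + b1 * y + z) = (1 + r) * (a0 + u + a * z) := by linear_combination (1 + r) * e0
      rw [h4]
      have h5 : 0 ≤ (1 + r) * a0 := by positivity
      linarith
    by_contra hc
    push_neg at hc
    have h4 := mul_le_mul_of_nonneg_right hc hF.le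
    linarith
  have hya : y < a := by
    by_contra hc
    push_neg at hc
    have h1 : 0 < b0 + b1 * u + w := by positivity
    have h2 := mul_le_mul_of_nonneg_right hc h1.le
    have h3 : 0 < y * b1 := by positivity
    linarith
  have hza : z < a := by
    by_contra hc
    push_neg at hc
    have h1 : 0 < b0 + b1 * w + ρ := by positivity
    have h2 := mul_le_mul_of_nonneg_right hc h1.le
    have h3 : 0 < z * b1 := by positivity
    linarith
  rcases le_or_gt ((1 + r) * a) 1 with h1 | h1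
  · have h2 := hs r hr h1
    have h3 : r * b1 * y ≤ r * b1 * a := mul_le_mul_of_nonneg_left hya.le (by positivity)
    have h4 : r * (1 - (1 + r) * a) * z ≤ r * (1 - (1 + r) * a) * a :=
      mul_le_mul_of_nonneg_left hza.le (mul_nonneg hr.le (by linarith))
    linarith
  · have hp := hP r w hr hw h1
    unfold Pineq at hp
    have hX : 0 < r * (1 + r) * (b0 + w) + b1 * (b0 * (1 + r) + b1) := by positivity
    have hXe : r * (1 + r) * (b0 + w) + b1 * (b0 * (1 + r) + b1) = r * (1 + r) * (b0 + b1 * u + w) := by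
      linear_combination (-b1) * hcr
    set X := r * (1 + r) * (b0 + w) + b1 * (b0 * (1 + r) + b1) with hXd
    set Y := r * (1 + r) * b1 + X with hYd
    have hY : 0 < Y := by positivity
    have he : 0 < b0 + b1 * w := by positivity
    have hyY : y * Y = a * X := by
      rw [hYd, hXe]
      linear_combination (r * (1 + r)) * e1
    -- the lower bound of `z`
    have hz2 : a * (b0 + b1 * w) < z * (b1 + (b0 + b1 * w)) := by
      have h3 : (a * (b0 + b1 * w) - z * (b1 + (b0 + b1 * w))) = (z - a) * ρ := by linear_combination (-1 : ℝ) * e2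
      have h4 : (z - a) * ρ < 0 := mul_neg_of_neg_of_pos (by linarith) hr3
      linarith
    have hsp : 0 < r * ((1 + r) * a - 1) := mul_pos hr (by linarith)
    have h5 : r * b1 * y * (Y * (b1 + (b0 + b1 * w))) <
        ((b0 + b1) + r * ((1 + r) * a - 1) * z) * (Y * (b1 + (b0 + b1 * w))) := by
      have h6 : r * b1 * y * (Y * (b1 + (b0 + b1 * w))) = r * b1 * a * X * (b1 + (b0 + b1 * w)) := by
        linear_combination (r * b1 * (b1 + (b0 + b1 * w))) * hyY
      have h7 : r * ((1 + r) * a - 1) * a * (b0 + b1 * w) * Y <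
          r * ((1 + r) * a - 1) * z * (Y * (b1 + (b0 + b1 * w))) := by
        have := mul_lt_mul_of_pos_left hz2 (mul_pos hsp hY)
        linarith
      rw [h6]
      linarith
    exact lt_of_mul_lt_mul_right h5 (by positivity)

/-- from homogeneous coordinates -/
theorem Pineq_of {A B C Q rn sn sd W : ℝ} (hA : 0 < A) (hQ : 0 < Q) (hsd : 0 < sd)
    (h : rn * B * (rn * (rn + sd * A) * (C + Q * W) * Q + B * C * (rn + sd * A) * (sd * A) + B ^ 2 * (sd * A) ^ 2) *
        (B + (C + B * W)) * sd ≤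
      (C + B) * (rn * (rn + sd * A) * B * Q + (rn * (rn + sd * A) * (C + Q * W) * Q + B * C * (rn + sd * A) * (sd * A) +
        B ^ 2 * (sd * A) ^ 2)) * (B + (C + B * W)) * Q * sd ^ 2 +
      rn * sn * (C + B * W) * (rn * (rn + sd * A) * B * Q + (rn * (rn + sd * A) * (C + Q * W) * Q +
        B * C * (rn + sd * A) * (sd * A) + B ^ 2 * (sd * A) ^ 2)) * Q) :
    Pineq (A / Q) (C / Q) (B / Q) (rn / (sd * A)) (sn / sd) W := by
  unfold Pineq
  rw [← sub_nonneg] at h ⊢
  have hK : 0 < (sd * A) ^ 2 * sd ^ 2 * Q ^ 5 := by positivity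
  refine nonneg_of_mul_nonneg_left ?_ hK
  refine h.trans (le_of_eq ?_)
  field_simp
  ring

end Pool.Agent.H30.M3
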