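import Pool.Agent.H30.M3.F1
import Pool.Agent.H43.K4.Kron

/-!
# Family I, region F1a (`a < 1`, `b₁ ≤ 2`): `V = U / P`
-/

namespace Pool.Agent.H30.M3

open Pool.Agent.H43.K4 Ex

/-- the left side of the polynomial inequality -/
def Lx (A B C Q rn sn sd W : Ex) : Ex :=
  (C + B) * (rn * (rn + sd * A) * B * Q + (rn * (rn + sd * A) * (C + Q * W) * Q + B * C * (rn + sd * A) * (sd * A) +
        B ^ 2 * (sd * A) ^ 2)) * (B + (C + B * W)) * Q * sd ^ 2 +
      rn * sn * (C + B * W) * (rn * (rn + sd * A) * B * Q + (rn * (rn + sd * A) * (C + Q * W) * Q +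
        B * C * (rn + sd * A) * (sd * A) + B ^ 2 * (sd * A) ^ 2)) * Q

/-- the right side of the polynomial inequality -/
def Rx (A B C Q rn sn sd W : Ex) : Ex :=
  rn * B * (rn * (rn + sd * A) * (C + Q * W) * Q + B * C * (rn + sd * A) * (sd * A) + B ^ 2 * (sd * A) ^ 2) *
        (B + (C + B * W)) * sd

theorem ev_one' (x : ℕ → ℝ) : Ex.ev x (1 : Ex) = 1 := by
  have : Ex.ev x (1 : Ex) = ((1 : ℕ) : ℝ) := rfl
  rw [this, Nat.cast_one]

theorem ev_two' (x : ℕ → ℝ) : Ex.ev x (2 : Ex) = 2 := by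
  have : Ex.ev x (2 : Ex) = ((2 : ℕ) : ℝ) := rfl
  rw [this, Nat.cast_ofNat]

theorem Pineq_of_chk {k : ℕ} {rs : List ℕ} {A B C Q rn sn sd W : Ex}
    (h : chk k rs (Lx A B C Q rn sn sd W) (Rx A B C Q rn sn sd W) = true) (x : ℕ → ℝ) (hx : ∀ i, 0 ≤ x i)
    (hA : 0 < A.ev x) (hQ : 0 < Q.ev x) (hsd : 0 < sd.ev x) :
    Pineq (A.ev x / Q.ev x) (C.ev x / Q.ev x) (B.ev x / Q.ev x) (rn.ev x / (sd.ev x * A.ev x)) (sn.ev x / sd.ev x)
      (W.ev x) := Pineq_of hA hQ hsd (le_of_chk h x hx)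

/-- `1 + p` -/
def eBd : Ex := 1 + v 2
def eT : Ex := (1 + v 4) * eBd + 2
def eQ : Ex := eT * eBd
def eB : Ex := 2 * eT
def eAA : Ex := (1 + v 4) * eBd ^ 2
def eCA : Ex := v 3 * eQ
def eAB : Ex := eBd ^ 2
def eCB : Ex := v 4 * eBd ^ 2 + v 3 * eQ
def eDA : Ex := 2 * eBd
def eDB : Ex := (v 4 * eBd + 2) * eBd
def sn1 : Ex := 1 + v 0
def one : Ex := 1

theorem chkA1 : chk 35 [5, 3, 15, 4, 8] (Lx eAA eB eCA eQ (sn1 * eQ + one * eDA) sn1 one (v 1))
    (Rx eAA eB eCA eQ (sn1 * eQ + one * eDA) sn1 one (v 1)) = true := by decide +kernel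

theorem chkA2 : chk 36 [5, 3, 15, 4, 8] (Lx eAA eB eCA eQ (one * eQ + sn1 * eDA) one sn1 (v 1))
    (Rx eAA eB eCA eQ (one * eQ + sn1 * eDA) one sn1 (v 1)) = true := by decide +kernel

theorem chkB1 : chk 36 [5, 3, 15, 4, 8] (Lx eAB eB eCB eQ (sn1 * eQ + one * eDB) sn1 one (v 1))
    (Rx eAB eB eCB eQ (sn1 * eQ + one * eDB) sn1 one (v 1)) = true := by decide +kernel

theorem chkB2 : chk 37 [5, 3, 15, 4, 8] (Lx eAB eB eCB eQ (one * eQ + sn1 * eDB) one sn1 (v 1))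
    (Rx eAB eB eCB eQ (one * eQ + sn1 * eDB) one sn1 (v 1)) = true := by decide +kernel

/-- the point -/
def xx (s W p g t : ℝ) : ℕ → ℝ
  | 0 => s
  | 1 => W
  | 2 => p
  | 3 => g
  | _ => t

theorem xx_nonneg {s W p g t : ℝ} (hs : 0 ≤ s) (hW : 0 ≤ W) (hp : 0 ≤ p) (hg : 0 ≤ g) (ht : 0 ≤ t) (i : ℕ) :
    0 ≤ xx s W p g t i := by
  match i with
  | 0 => exact hs
  | 1 => exact hW
  | 2 => exact hp
  | 3 => exact hg
  | _ + 4 => exact ht

/-- `a ≥ 1 / (1 + b₁)` -/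
theorem pineq_A {a b0 b1 s W : ℝ} (ha : a < 1) (hb0 : 0 ≤ b0) (hb1 : 0 < b1) (hb2 : b1 ≤ 2) (hab : 1 ≤ a * (1 + b1))
    (hs : 0 < s) (hW : 0 < W) : Pineq a b0 b1 ((1 + s - a) / a) s W := by
  have ha0 : 0 < a := by
    by_contra hc
    rw [not_lt] at hc
    have := mul_nonpos_of_nonpos_of_nonneg hc (show 0 ≤ 1 + b1 by linarith)
    linarith
  obtain ⟨p, hp⟩ : ∃ p, p = 2 / b1 - 1 := ⟨_, rfl⟩
  have hp0 : 0 ≤ p := by
    rw [hp, sub_nonneg, le_div_iff₀ hb1]
    linarith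
  have hbp : b1 = 2 / (1 + p) := by
    rw [hp]
    field_simp
    ring
  obtain ⟨t, ht⟩ : ∃ t, t = (a * (1 + b1) - 1) / (1 - a) := ⟨_, rfl⟩
  have ht0 : 0 ≤ t := by
    rw [ht]
    exact div_nonneg (by linarith) (by linarith)
  have hat : a = (1 + t) / (1 + b1 + t) := by
    have h1 : 1 - a ≠ 0 := by linarith
    have h2 : t * (1 - a) = a * (1 + b1) - 1 := by rw [ht]; field_simp
    rw [eq_div_iff (by positivity)]
    linear_combination -h2
  have hat2 : a = (1 + t) * (1 + p) ^ 2 / (((1 + t) * (1 + p) + 2) * (1 + p)) := by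
    rw [hat, hbp]
    field_simp
    ring
  rcases le_or_gt 1 s with h1 | h1
  · have := Pineq_of_chk chkA1 (xx (s - 1) W p b0 t) (xx_nonneg (by linarith) hW.le hp0 hb0 ht0)
      (by simp only [eAA, eBd, ev_add, ev_mul, ev_pow, ev_one', ev_two', ev_v, xx]; positivity)
      (by simp only [eQ, eT, eBd, ev_add, ev_mul, ev_pow, ev_one', ev_two', ev_v, xx]; positivity)
      (by simp only [one, ev_one', ev_two']; positivity)
    simp only [eAA, eQ, eT, eB, eCA, eDA, eBd, sn1, one, ev_add, ev_mul, ev_pow, ev_one', ev_two', ev_v, xx] at this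
    have e1 : (1 + t) * (1 + p) ^ 2 / (((1 + t) * (1 + p) + 2) * (1 + p)) = a := hat2.symm
    have e2 : b0 * (((1 + t) * (1 + p) + 2) * (1 + p)) / (((1 + t) * (1 + p) + 2) * (1 + p)) = b0 := by
      field_simp
    have e3 : 2 * ((1 + t) * (1 + p) + 2) / (((1 + t) * (1 + p) + 2) * (1 + p)) = b1 := by
      rw [hbp]
      field_simp
    have e4 : ((1 + (s - 1)) * (((1 + t) * (1 + p) + 2) * (1 + p)) + 1 * (2 * (1 + p))) /
        (1 * ((1 + t) * (1 + p) ^ 2)) = (1 + s - a) / a := by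
      rw [hat2]
      field_simp
      ring
    have e5 : (1 + (s - 1)) / 1 = s := by ring
    rw [e1, e2, e3, e4, e5] at this
    exact this
  · have hs1 : 0 ≤ 1 / s - 1 := by
      rw [sub_nonneg, le_div_iff₀ hs]
      linarith
    have := Pineq_of_chk chkA2 (xx (1 / s - 1) W p b0 t) (xx_nonneg hs1 hW.le hp0 hb0 ht0)
      (by simp only [eAA, eBd, ev_add, ev_mul, ev_pow, ev_one', ev_two', ev_v, xx]; positivity)
      (by simp only [eQ, eT, eBd, ev_add, ev_mul, ev_pow, ev_one', ev_two', ev_v, xx]; positivity)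
      (by simp only [sn1, ev_add, ev_one', ev_two', ev_v, xx]; linarith)
    simp only [eAA, eQ, eT, eB, eCA, eDA, eBd, sn1, one, ev_add, ev_mul, ev_pow, ev_one', ev_two', ev_v, xx] at this
    have e1 : (1 + t) * (1 + p) ^ 2 / (((1 + t) * (1 + p) + 2) * (1 + p)) = a := hat2.symm
    have e2 : b0 * (((1 + t) * (1 + p) + 2) * (1 + p)) / (((1 + t) * (1 + p) + 2) * (1 + p)) = b0 := by
      field_simp
    have e3 : 2 * ((1 + t) * (1 + p) + 2) / (((1 + t) * (1 + p) + 2) * (1 + p)) = b1 := by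
      rw [hbp]
      field_simp
    have e0 : 1 + (1 / s - 1) = 1 / s := by ring
    rw [e0] at this
    have e4 : (1 * (((1 + t) * (1 + p) + 2) * (1 + p)) + 1 / s * (2 * (1 + p))) /
        (1 / s * ((1 + t) * (1 + p) ^ 2)) = (1 + s - a) / a := by
      rw [hat2]
      field_simp
      ring
    have e5 : 1 / (1 / s) = s := by field_simp
    rw [e1, e2, e3, e4, e5] at this
    exact this

/-- `a ≤ 1 / (1 + b₁)` -/
theorem pineq_B {a b0 b1 s W : ℝ} (ha0 : 0 < a) (hb1 : 0 < b1) (hb2 : b1 ≤ 2) (hab : a * (1 + b1) ≤ 1)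
    (hΦ : 1 ≤ b0 + a * (1 + b1)) (hs : 0 < s) (hW : 0 < W) : Pineq a b0 b1 ((1 + s - a) / a) s W := by
  obtain ⟨p, hp⟩ : ∃ p, p = 2 / b1 - 1 := ⟨_, rfl⟩
  have hp0 : 0 ≤ p := by
    rw [hp, sub_nonneg, le_div_iff₀ hb1]
    linarith
  have hbp : b1 = 2 / (1 + p) := by
    rw [hp]
    field_simp
    ring
  obtain ⟨t, ht⟩ : ∃ t, t = 1 / a - 1 - b1 := ⟨_, rfl⟩
  have ht0 : 0 ≤ t := by
    rw [ht]
    have : 1 + b1 ≤ 1 / a := by
      rw [le_div_iff₀ ha0]
      linarith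
    linarith
  have hat : a = 1 / (1 + b1 + t) := by
    rw [ht]
    field_simp
    ring
  have hat2 : a = (1 + p) ^ 2 / (((1 + t) * (1 + p) + 2) * (1 + p)) := by
    rw [hat, hbp]
    field_simp
    ring
  obtain ⟨g, hg⟩ : ∃ g, g = b0 + a * (1 + b1) - 1 := ⟨_, rfl⟩
  have hg0 : 0 ≤ g := by linarith
  have hbg : b0 = t * a + g := by
    have : t * a = 1 - a - b1 * a := by
      rw [ht]
      field_simp
    rw [this, hg]
    ring
  have hbg2 : (t * (1 + p) ^ 2 + g * (((1 + t) * (1 + p) + 2) * (1 + p))) / (((1 + t) * (1 + p) + 2) * (1 + p)) = b0 := by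
    rw [hbg, hat2]
    field_simp
  have e1 : (1 + p) ^ 2 / (((1 + t) * (1 + p) + 2) * (1 + p)) = a := hat2.symm
  have e3 : 2 * ((1 + t) * (1 + p) + 2) / (((1 + t) * (1 + p) + 2) * (1 + p)) = b1 := by
    rw [hbp]
    field_simp
  rcases le_or_gt 1 s with h1 | h1
  · have := Pineq_of_chk chkB1 (xx (s - 1) W p g t) (xx_nonneg (by linarith) hW.le hp0 hg0 ht0)
      (by simp only [eAB, eBd, ev_add, ev_mul, ev_pow, ev_one', ev_two', ev_v, xx]; positivity)
      (by simp only [eQ, eT, eBd, ev_add, ev_mul, ev_pow, ev_one', ev_two', ev_v, xx]; positivity)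
      (by simp only [one, ev_one', ev_two']; positivity)
    simp only [eAB, eQ, eT, eB, eCB, eDB, eBd, sn1, one, ev_add, ev_mul, ev_pow, ev_one', ev_two', ev_v, xx] at this
    have e4 : ((1 + (s - 1)) * (((1 + t) * (1 + p) + 2) * (1 + p)) + 1 * ((t * (1 + p) + 2) * (1 + p))) /
        (1 * ((1 + p) ^ 2)) = (1 + s - a) / a := by
      rw [hat2]
      field_simp
      ring
    have e5 : (1 + (s - 1)) / 1 = s := by ring
    rw [e1, hbg2, e3, e4, e5] at this
    exact this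
  · have hs1 : 0 ≤ 1 / s - 1 := by
      rw [sub_nonneg, le_div_iff₀ hs]
      linarith
    have := Pineq_of_chk chkB2 (xx (1 / s - 1) W p g t) (xx_nonneg hs1 hW.le hp0 hg0 ht0)
      (by simp only [eAB, eBd, ev_add, ev_mul, ev_pow, ev_one', ev_two', ev_v, xx]; positivity)
      (by simp only [eQ, eT, eBd, ev_add, ev_mul, ev_pow, ev_one', ev_two', ev_v, xx]; positivity)
      (by simp only [sn1, ev_add, ev_one', ev_two', ev_v, xx]; linarith)
    simp only [eAB, eQ, eT, eB, eCB, eDB, eBd, sn1, one, ev_add, ev_mul, ev_pow, ev_one', ev_two', ev_v, xx] at this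
    have e0 : 1 + (1 / s - 1) = 1 / s := by ring
    rw [e0] at this
    have e4 : (1 * (((1 + t) * (1 + p) + 2) * (1 + p)) + 1 / s * ((t * (1 + p) + 2) * (1 + p))) /
        (1 / s * ((1 + p) ^ 2)) = (1 + s - a) / a := by
      rw [hat2]
      field_simp
      ring
    have e5 : 1 / (1 / s) = s := by field_simp
    rw [e1, hbg2, e3, e4, e5] at this
    exact this

/-- **region F1a** -/
theorem regF1a : RegF1a := by
  intro a0 a b0 b1 p q ha0 ha ha1 hb0 _ hb1 hb2 hΦ h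
  refine F1_of_P ha hb0 hb1 (fun r hr hra => ?_) (fun r W hr hW hra => ?_) ha0 h
  · -- the half plane `(1 + r) a ≤ 1`
    have h1 : 0 < r * a := mul_pos hr ha
    have h2 : r * a ≤ 1 - a := by linarith
    have h3 : r * a * (1 - (1 + r) * a) ≤ (1 - a) * (1 - (1 + r) * a) :=
      mul_le_mul_of_nonneg_right h2 (by linarith)
    have h4 : (1 - a) * (1 - (1 + r) * a) ≤ (1 - a) * 1 := mul_le_mul_of_nonneg_left (by nlinarith) (by linarith)
    have h5 : b1 * (r * a) ≤ b1 * (1 - a) := mul_le_mul_of_nonneg_left h2 hb1.le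
    nlinarith
  · have hr' : r = (1 + ((1 + r) * a - 1) - a) / a := by
      field_simp
      ring
    have hs : 0 < (1 + r) * a - 1 := by linarith
    rcases le_or_gt 1 (a * (1 + b1)) with hab | hab
    · have := pineq_A ha1 hb0 hb1 hb2 hab hs hW
      rw [← hr'] at this
      exact this
    · have := pineq_B (b0 := b0) ha hb1 hb2 hab.le (by linarith) hs hW
      rw [← hr'] at this
      exact this

end Pool.Agent.H30.M3
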