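import Pool.Agent.H30.M3.F1a

/-!
# Family I, region F1b (`a ≥ 1`, `a b₁ ≤ 1`): `V = U / P`
-/

namespace Pool.Agent.H30.M3

open Pool.Agent.H43.K4 Ex

def fa : Ex := 1 + v 4
def fQ : Ex := fa * (1 + v 2)
def fA : Ex := fa * fQ
def fC : Ex := v 3 * fQ
def fs : Ex := v 0 + v 4 + v 0 * v 4

theorem chkF1b : chk 23 [5, 3, 8, 4, 12] (Lx fA 1 fC fQ (v 0 * fA) fs 1 (v 1)) (Rx fA 1 fC fQ (v 0 * fA) fs 1 (v 1)) = true := by
  decide +kernel

/-- **region F1b** -/
theorem regF1b : RegF1b := by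
  intro a0 a b0 b1 p q ha0 ha1 hb0 _ hb1 hab h
  have ha : 0 < a := by linarith
  refine F1_of_P ha hb0 hb1 (fun r hr hra => ?_) (fun r W hr hW hra => ?_) ha0 h
  · have : 0 < r * a := mul_pos hr ha
    nlinarith
  · obtain ⟨P, hP⟩ : ∃ P, P = 1 / (a * b1) - 1 := ⟨_, rfl⟩
    have hab0 : 0 < a * b1 := mul_pos ha hb1
    have hP0 : 0 ≤ P := by
      rw [hP, sub_nonneg, le_div_iff₀ hab0]
      linarith
    have hbP : b1 = 1 / (a * (1 + P)) := by
      rw [hP]
      field_simp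
      ring
    have ht : 0 ≤ a - 1 := by linarith
    have := Pineq_of_chk chkF1b (xx r W P b0 (a - 1)) (xx_nonneg hr.le hW.le hP0 hb0 ht)
      (by simp only [fA, fQ, fa, ev_add, ev_mul, ev_one', ev_v, xx]; positivity)
      (by simp only [fQ, fa, ev_add, ev_mul, ev_one', ev_v, xx]; positivity)
      (by simp only [ev_one']; positivity)
    simp only [fA, fQ, fa, fC, fs, ev_add, ev_mul, ev_one', ev_v, xx] at this
    have e0 : 1 + (a - 1) = a := by ring
    rw [e0] at this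
    have e1 : a * (a * (1 + P)) / (a * (1 + P)) = a := by field_simp
    have e2 : b0 * (a * (1 + P)) / (a * (1 + P)) = b0 := by field_simp
    have e4 : r * (a * (a * (1 + P))) / (1 * (a * (a * (1 + P)))) = r := by field_simp
    have e5 : (r + (a - 1) + r * (a - 1)) / 1 = (1 + r) * a - 1 := by ring
    rw [e1, e2, ← hbP, e4, e5] at this
    exact this

end Pool.Agent.H30.M3
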