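import Pool.Agent.H30.M3.Reg
import Pool.Agent.H4.RD4.M3

/-!
# The mod three family: scaling and shift (`a₁ b₄ < a₄ b₁`: family I)
-/

namespace Pool.Agent.H30.M3

open Pool.Agent.H4.RD4

/-- the shift by `m = a₁ / b₁`: the shifted sequences are positive and solve the system with `a₁ = 0` -/
theorem PQ.shift_m {a0 a1 a4 b0 b1 m : ℝ} {p q : ℕ → ℝ} (h : PQ a0 a1 a4 b0 b1 p q) (ha0 : 0 ≤ a0) (hb0 : 0 ≤ b0)
    (hb0' : b0 < 1) (hb1 : 0 < b1) (hm : 0 ≤ m) (hm1 : a1 = b1 * m) (hm4 : m < a4) :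
    PQ (a0 + m * (1 - b0) + m * (a4 - m)) 0 (a4 - m) (b0 + (b1 + 1) * m) b1 (fun k => p k - m) (fun k => q k - m) := by
  have hE : ∀ k, 0 < b0 + b1 * p k + p (k + 1) := fun k => by
    have h1 := mul_pos hb1 (h.pp k)
    have h2 := h.pp (k + 1)
    linarith
  -- positivity of `q - m`
  have hq : ∀ k, 0 < q k - m := by
    intro k
    have e := h.e3 k
    have hE1 : 0 < b0 + b1 * p (k + 1) + p (k + 2) := hE (k + 1)
    have e1 : (q k - m) * (b1 + (b0 + b1 * p (k + 1) + p (k + 2))) = (a4 - m) * (b0 + b1 * p (k + 1) + p (k + 2)) := by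
      rw [sub_mul, e, hm1]
      ring
    have e2 : 0 < (a4 - m) * (b0 + b1 * p (k + 1) + p (k + 2)) := mul_pos (by linarith) hE1
    rw [← e1] at e2
    exact pos_of_mul_pos_left e2 (by linarith)
  -- the second equation
  have hp2 : ∀ k, (p k - m) * ((b0 + (b1 + 1) * m) + b1 * (q k - m) + (q (k + 1) - m)) =
      (a0 + m * (1 - b0) + m * (a4 - m)) + 0 * (q k - m) + (p (k + 1) - m) + (a4 - m) * (q (k + 1) - m) := by
    intro k
    have e := h.e2 k
    rw [hm1] at e
    linear_combination e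
  -- `p ≥ m`
  have hge : ∀ k, 0 ≤ p k - m := by
    intro t
    by_contra hneg
    push_neg at hneg
    have hmp : 0 < m := by have := h.pp t; linarith
    set δ : ℝ := min (m * (1 - b0)) (m ^ 2 * (b1 + 1)) with hδ
    have hδ0 : 0 < δ := lt_min (mul_pos hmp (by linarith)) (by positivity)
    have key : ∀ n : ℕ, p (t + n) - m ≤ (p t - m) - n * δ := by
      intro n
      induction n with
      | zero => simp
      | succ n ih =>
        have e := hp2 (t + n)
        have hy : p (t + n) - m < 0 := by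
          have : 0 ≤ (n : ℝ) * δ := by positivity
          linarith
        have hF : b0 + (b1 + 1) * m ≤ (b0 + (b1 + 1) * m) + b1 * (q (t + n) - m) + (q (t + n + 1) - m) := by
          have h1 := mul_pos hb1 (hq (t + n))
          have h2 := hq (t + n + 1)
          linarith
        have h3 : (p (t + n) - m) * ((b0 + (b1 + 1) * m) + b1 * (q (t + n) - m) + (q (t + n + 1) - m)) ≤
            (p (t + n) - m) * (b0 + (b1 + 1) * m) := mul_le_mul_of_nonpos_left hF hy.le
        have h4 : 0 < (a4 - m) * (q (t + n + 1) - m) := mul_pos (by linarith) (hq _)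
        have h5 : 0 ≤ m * (a4 - m) := mul_nonneg hm (by linarith)
        have h6 : p (t + n + 1) - m ≤ (p (t + n) - m) * (b0 + (b1 + 1) * m) - m * (1 - b0) := by linarith
        have h7 : (p (t + n) - m) * (b0 + (b1 + 1) * m) - m * (1 - b0) ≤ (p (t + n) - m) - δ := by
          rcases le_or_gt 1 (b0 + (b1 + 1) * m) with h8 | h8
          · have h9 : δ ≤ m * (1 - b0) := min_le_left _ _
            have h10 := mul_le_mul_of_nonpos_left h8 hy.le
            linarith
          · have h9 : δ ≤ m ^ 2 * (b1 + 1) := min_le_right _ _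
            have h10 : -m ≤ p (t + n) - m := by have := h.pp (t + n); linarith
            have h11 := mul_le_mul_of_nonneg_right h10 (show 0 ≤ 1 - (b0 + (b1 + 1) * m) by linarith)
            nlinarith
        have e1 : t + (n + 1) = t + n + 1 := by ring
        rw [e1]
        push_cast
        linarith
    obtain ⟨n, hn⟩ := exists_nat_gt (m / δ)
    rw [div_lt_iff₀ hδ0] at hn
    have h1 := key n
    have h2 := h.pp (t + n)
    linarith
  have hpp : ∀ k, 0 < p k - m := by
    intro k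
    have e := hp2 k
    have h1 : 0 < (a4 - m) * (q (k + 1) - m) := mul_pos (by linarith) (hq _)
    have h2 := hge (k + 1)
    have h3 : 0 ≤ m * (a4 - m) := mul_nonneg hm (by linarith)
    have h4 : 0 ≤ m * (1 - b0) := mul_nonneg hm (by linarith)
    have h5 : 0 < (p k - m) * ((b0 + (b1 + 1) * m) + b1 * (q k - m) + (q (k + 1) - m)) := by
      rw [e]
      linarith
    have h6 : 0 ≤ (b0 + (b1 + 1) * m) + b1 * (q k - m) + (q (k + 1) - m) := by
      have h7 := mul_pos hb1 (hq k)
      have h8 := hq (k + 1)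
      have h9 : 0 ≤ (b1 + 1) * m := by positivity
      linarith
    exact pos_of_mul_pos_left h5 h6
  refine ⟨hpp, hq, hp2, fun k => ?_⟩
  have e := h.e3 k
  rw [hm1] at e
  linear_combination e

/-- **family I** (`a₁ b₄ < a₄ b₁`) -/
theorem noM3_I (hI : ∀ {a0 a b0 b1 : ℝ}, Good a0 0 a b0 b1 → 0 < b1 → NoSys a0 0 a b0 b1) {a b : ℕ → ℝ}
    (ha0 : 0 ≤ a 0) (ha1 : 0 ≤ a 1) (ha3 : 0 < a 3) (ha4 : 0 ≤ a 4) (hb0 : 0 ≤ b 0) (hb1 : 0 ≤ b 1) (hb4 : 0 < b 4)
    (h14 : a 1 * b 4 < a 4 * b 1) : NoM3 a b := by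
  intro ρ p q h0 h1 h2 h3 h4 h5 h6 h7
  have hb1' : 0 < b 1 := by
    rcases hb1.lt_or_eq with h | h
    · exact h
    · rw [← h, mul_zero] at h14
      exact absurd h14 (not_lt.2 (mul_nonneg ha1 hb4.le))
  -- `b₀ < a₃`
  have hba : b 0 < a 3 := by
    have e := h5 0
    have e1 := h2 1
    have e2 := mul_pos hb1' (h3 0)
    have e3 := mul_pos hb4 (h3 1)
    have e4 := mul_le_mul_of_nonneg_left e1 ha3.le
    rw [h0, one_mul] at e
    simp only [zero_add] at e
    linarith
  -- the scaled system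
  have hc : 0 < b 4 / a 3 := div_pos hb4 ha3
  have e1 : ∀ k, ρ k * (b 0 / a 3 + b 1 / b 4 * (b 4 / a 3 * p k) + b 4 / a 3 * p (k + 1)) = ρ (k + 1) := by
    intro k
    have e := h5 k
    field_simp
    linear_combination e
  have hE : ∀ k, q k * (b 1 / b 4 + (b 0 / a 3 + b 1 / b 4 * (b 4 / a 3 * p (k + 1)) + b 4 / a 3 * p (k + 2))) * b 4 =
      a 1 + a 4 * (b 0 / a 3 + b 1 / b 4 * (b 4 / a 3 * p (k + 1)) + b 4 / a 3 * p (k + 2)) := by
    intro k
    have e := h7 k
    have e' : k + 1 + 1 = k + 2 := rfl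
    have e2 := e1 (k + 1)
    rw [e'] at e2
    set E := b 0 / a 3 + b 1 / b 4 * (b 4 / a 3 * p (k + 1)) + b 4 / a 3 * p (k + 2) with hEd
    rw [← e2] at e
    have hρ := h1 (k + 1)
    have e3 : ρ (k + 1) * (q k * (b 1 / b 4 + E) * b 4) = ρ (k + 1) * (a 1 + a 4 * E) := by
      have e4 : b 1 / b 4 * b 4 = b 1 := by field_simp
      linear_combination e + ρ (k + 1) * q k * e4
    exact mul_left_cancel₀ hρ.ne' e3
  have hPQ : PQ (a 0 * b 4 / a 3 ^ 2) (a 1 / a 3) (a 4 / a 3) (b 0 / a 3) (b 1 / b 4)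
      (fun k => b 4 / a 3 * p k) (fun k => b 4 / a 3 * q k) := by
    refine ⟨fun k => mul_pos hc (h3 k), fun k => mul_pos hc (h4 k), fun k => ?_, fun k => ?_⟩
    · have e := h6 k
      field_simp
      linear_combination e
    · have e := hE k
      linear_combination (1 / a 3) * e
  set m : ℝ := (a 1 / a 3) / (b 1 / b 4) with hm
  have hm0 : 0 ≤ m := by positivity
  have hS := hPQ.shift_m (m := m) (by positivity) (by positivity) (by rw [div_lt_one ha3]; exact hba) (by positivity) hm0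
    (by rw [hm]; field_simp) (by
      rw [hm, div_lt_iff₀ (by positivity), div_mul_div_comm, div_lt_div_iff₀ ha3 (by positivity)]
      have := mul_lt_mul_of_pos_right h14 ha3
      linarith)
  have hm4 : 0 < a 4 / a 3 - m := by
    rw [sub_pos, hm, div_lt_iff₀ (by positivity), div_mul_div_comm, div_lt_div_iff₀ ha3 (by positivity)]
    have := mul_lt_mul_of_pos_right h14 ha3
    linarith
  have hb0' : b 0 / a 3 < 1 := by rw [div_lt_one ha3]; exact hba
  refine hI (a0 := a 0 * b 4 / a 3 ^ 2 + m * (1 - b 0 / a 3) + m * (a 4 / a 3 - m)) (a := a 4 / a 3 - m)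
    (b0 := b 0 / a 3 + (b 1 / b 4 + 1) * m) (b1 := b 1 / b 4) ⟨?_, le_rfl, hm4.le, by positivity, by positivity, by positivity,
      Or.inr hm4⟩ (by positivity) ρ _ _ hS h0 h1 h2 fun k => ?_
  · have i1 : 0 ≤ m * (1 - b 0 / a 3) := mul_nonneg hm0 (by linarith)
    have i2 : 0 ≤ m * (a 4 / a 3 - m) := mul_nonneg hm0 hm4.le
    have i3 : 0 ≤ a 0 * b 4 / a 3 ^ 2 := by positivity
    linarith
  · have e := e1 k
    linear_combination e

end Pool.Agent.H30.M3
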