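import Pool.Agent.H30.M3.Pot

/-!
# The limit system of the mod three family: the statements which the region modules prove

FAMILY II: `a₄ = 0`, `a := a₁ > 0`. FAMILY I: `a₁ = 0`, `a := a₄ > 0`, `b₁ > 0`. `a₀ ≥ 0`, `0 ≤ b₀ < 1` always.
Notation of the paper proof at base `t`: region with `T1`: `v = p 0`, `U = p 1`, `W = p 2`, `R = p 3`, `Z₁ = q 0`, `Z₀ = q 1`;
`T4, T5, T6`: `v = p 1`, `U = p 2`, `W = p 3`, `R = p 4`, `Z₂ = q 0`, `Z₁ = q 1`, `Z₀ = q 2`;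
`T2, T3`: `v' = p 1`, `v = p 2`, `U = p 3`, `W = p 4`, `R = p 5`, `Z₃ = q 0`, `Z₂ = q 1`, `Z₁ = q 2`, `Z₀ = q 3`.
-/

namespace Pool.Agent.H30.M3

/-- II-1: `V = U / P` -/
def RegII1 : Prop := ∀ (a0 a b0 b1 : ℝ) (p q : ℕ → ℝ), 0 ≤ a0 → 0 < a → 0 ≤ b0 → b0 < 1 → 1 ≤ b1 →
  b0 + b1 < b0 * (b0 + b1) + (1 + b1) * a → PQ a0 a 0 b0 b1 p q → p 1 < p 0 * (b0 + b1 * p 0 + p 1)

/-- II-2: `V = U H₁ / (P F₀ F₁)` -/
def RegII2 : Prop := ∀ (a0 a b0 b1 : ℝ) (p q : ℕ → ℝ), 0 ≤ a0 → 0 < a → 0 ≤ b0 → b0 < 1 → 0 ≤ b1 → b1 ≤ 1 →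
  0 < b0 + b1 → b0 + b1 < b0 * (b0 + b1) + (1 + b1) * a → 1 ≤ a + 3 / 2 * b0 → PQ a0 a 0 b0 b1 p q →
  p 3 * (b0 + (1 + b1) * q 2) * (b0 + b1 * q 0 + q 1) <
    (a0 + a * q 2 + p 3) * (b0 + (1 + b1) * q 1) * (b0 + b1 * p 2 + p 3)

/-- II-3: `V = U² H₁ / (F₀ F₁)²` -/
def RegII3 : Prop := ∀ (a0 a b0 b1 : ℝ) (p q : ℕ → ℝ), 0 ≤ a0 → 0 < a → 0 ≤ b0 → b0 < 1 → 0 ≤ b1 → b1 ≤ 1 →
  0 < b0 + b1 → b0 + b1 < b0 * (b0 + b1) + (1 + b1) * a → a + 3 / 2 * b0 ≤ 1 → PQ a0 a 0 b0 b1 p q →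
  p 3 ^ 2 * (b0 + (1 + b1) * q 2) * (b0 + b1 * q 0 + q 1) ^ 2 <
    (a0 + a * q 2 + p 3) ^ 2 * (b0 + (1 + b1) * q 1)

/-- F1a: `V = U / P` -/
def RegF1a : Prop := ∀ (a0 a b0 b1 : ℝ) (p q : ℕ → ℝ), 0 ≤ a0 → 0 < a → a < 1 → 0 ≤ b0 → b0 < 1 → 0 < b1 → b1 ≤ 2 →
  1 < b0 + (1 + b1) * a → PQ a0 0 a b0 b1 p q → p 1 < p 0 * (b0 + b1 * p 0 + p 1)

/-- F1b: `V = U / P` -/
def RegF1b : Prop := ∀ (a0 a b0 b1 : ℝ) (p q : ℕ → ℝ), 0 ≤ a0 → 1 ≤ a → 0 ≤ b0 → b0 < 1 → 0 < b1 → a * b1 ≤ 1 →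
  PQ a0 0 a b0 b1 p q → p 1 < p 0 * (b0 + b1 * p 0 + p 1)

/-- F2: `V = U / (P F₀)` -/
def RegF2 : Prop := ∀ (a0 a b0 b1 : ℝ) (p q : ℕ → ℝ), 0 ≤ a0 → 0 < a → a ≤ 9 / 20 → 0 ≤ b0 → b0 < 1 → 2 ≤ b1 →
  1 < b0 + (1 + b1) * a → PQ a0 0 a b0 b1 p q →
  p 2 * (b0 + b1 * q 0 + q 1) < (a0 + p 2 + a * q 2) * (b0 + b1 * p 1 + p 2)

/-- F3: `V = U / (P Z₁)` -/
def RegF3 : Prop := ∀ (a0 a b0 b1 : ℝ) (p q : ℕ → ℝ), 0 ≤ a0 → 9 / 20 ≤ a → a ≤ 1 → 0 ≤ b0 → b0 < 1 → 2 ≤ b1 →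
  PQ a0 0 a b0 b1 p q → p 2 * q 0 < p 1 * q 1 * (b0 + b1 * p 1 + p 2)

/-- F4: `V² = U Z₀ / (F₀ P²)` -/
def RegF4 : Prop := ∀ (a0 a b0 b1 : ℝ) (p q : ℕ → ℝ), 0 ≤ a0 → 1 ≤ a → 0 ≤ b0 → b0 < 1 → 0 < b1 → 1 ≤ a * b1 →
  PQ a0 0 a b0 b1 p q →
  p 2 * q 2 * (b0 + b1 * q 0 + q 1) < (a0 + p 2 + a * q 2) * q 1 * (b0 + b1 * p 1 + p 2) ^ 2

/-- `b₀ ≥ 1` is trivial -/
theorem noSys_b0 {a0 a1 a4 b0 b1 : ℝ} (g : Good a0 a1 a4 b0 b1) (hb : 1 ≤ b0) : NoSys a0 a1 a4 b0 b1 := by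
  intro ρ p q h h0 h1 h2 h3
  have e := h3 0
  have e1 := h2 1
  have e2 := h.E_gt g 0
  rw [h0, one_mul] at e
  simp only [zero_add] at e e2
  linarith

/-- the maximum of `F` is at most one: trivial -/
theorem noSys_F {a0 a1 a4 b0 b1 : ℝ} (g : Good a0 a1 a4 b0 b1)
    (hF : ∀ p q, PQ a0 a1 a4 b0 b1 p q → b0 + b1 * q 0 + q 1 ≤ 1) : NoSys a0 a1 a4 b0 b1 := by
  refine noSys_T0 g fun p q h => ?_
  have e := h.e2 0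
  have h1 := hF p q h
  have h2 := mul_le_mul_of_nonneg_left h1 (h.pp 0).le
  have h3 := g.a0n
  simp only [zero_add] at e
  rcases g.ap with h4 | h4
  · have h5 := mul_pos h4 (h.qp 0)
    have h6 := mul_nonneg g.a4n (h.qp 1).le
    linarith
  · have h5 := mul_pos h4 (h.qp 1)
    have h6 := mul_nonneg g.a1n (h.qp 0).le
    linarith

/-- FAMILY II -/
theorem noSys_II (r1 : RegII1) (r2 : RegII2) (r3 : RegII3) {a0 a b0 b1 : ℝ} (g : Good a0 a 0 b0 b1) :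
    NoSys a0 a 0 b0 b1 := by
  have ha : 0 < a := by
    rcases g.ap with h | h
    · exact h
    · exact absurd h (lt_irrefl _)
  rcases le_or_gt 1 b0 with hb | hb
  · exact noSys_b0 g hb
  rcases le_or_gt (b0 * (b0 + b1) + (1 + b1) * a) (b0 + b1) with hΦ | hΦ
  · refine noSys_F g fun p q h => ?_
    have h1 := h.F_le g 0
    refine h1.trans ?_
    unfold Fm Zm
    have hD := g.bp
    have e : b0 + (b1 + 1) * (a / (b0 + b1) + 0) = (b0 * (b0 + b1) + (1 + b1) * a) / (b0 + b1) := by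
      field_simp
      ring
    rw [e, div_le_one hD]
    exact hΦ
  rcases le_or_gt 1 b1 with hb1 | hb1
  · exact noSys_T1 g fun p q h => r1 a0 a b0 b1 p q g.a0n ha g.b0n hb hb1 hΦ h
  rcases le_or_gt 1 (a + 3 / 2 * b0) with hc | hc
  · refine noSys_T2 g fun p q h => ?_
    have := r2 a0 a b0 b1 p q g.a0n ha g.b0n hb g.b1n hb1.le g.bp hΦ hc h
    rw [zero_mul, add_zero]
    exact this
  · refine noSys_T3 g fun p q h => ?_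
    have := r3 a0 a b0 b1 p q g.a0n ha g.b0n hb g.b1n hb1.le g.bp hΦ hc.le h
    rw [zero_mul, add_zero]
    exact this

/-- FAMILY I -/
theorem noSys_I (r1a : RegF1a) (r1b : RegF1b) (r2 : RegF2) (r3 : RegF3) (r4 : RegF4) {a0 a b0 b1 : ℝ}
    (g : Good a0 0 a b0 b1) (hb1 : 0 < b1) : NoSys a0 0 a b0 b1 := by
  have ha : 0 < a := by
    rcases g.ap with h | h
    · exact absurd h (lt_irrefl _)
    · exact h
  rcases le_or_gt 1 b0 with hb | hb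
  · exact noSys_b0 g hb
  rcases le_or_gt (b0 + (1 + b1) * a) 1 with hΦ | hΦ
  · refine noSys_F g fun p q h => ?_
    have h1 := h.F_le g 0
    refine h1.trans ?_
    unfold Fm Zm
    rw [zero_div, zero_add]
    linarith
  rcases le_or_gt 1 a with ha1 | ha1
  · rcases le_or_gt (a * b1) 1 with hab | hab
    · exact noSys_T1 g fun p q h => r1b a0 a b0 b1 p q g.a0n ha1 g.b0n hb hb1 hab h
    · refine noSys_T6 g fun p q h => ?_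
      have := r4 a0 a b0 b1 p q g.a0n ha1 g.b0n hb hb1 hab.le h
      rw [zero_mul, add_zero]
      exact this
  rcases le_or_gt b1 2 with hb2 | hb2
  · exact noSys_T1 g fun p q h => r1a a0 a b0 b1 p q g.a0n ha ha1 g.b0n hb hb1 hb2 hΦ h
  rcases le_or_gt a (9 / 20) with ha2 | ha2
  · refine noSys_T4 g fun p q h => ?_
    have := r2 a0 a b0 b1 p q g.a0n ha ha2 g.b0n hb hb2.le hΦ h
    rw [zero_mul, add_zero]
    exact this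
  · refine noSys_T5 g fun p q h => ?_
    exact r3 a0 a b0 b1 p q g.a0n ha2.le ha1.le g.b0n hb hb2.le h

end Pool.Agent.H30.M3
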