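import Pool.Agent.H30.M3.F1b
import Pool.Agent.H30.M3.Red
import Pool.Agent.H4.RD4.F2
import Pool.Agent.H4.RD4.F3
import Pool.Agent.H23.K4.F4

/-!
# The mod three family: family I complete
-/

namespace Pool.Agent.H30.M3

open Pool.Agent.H4.RD4 Pool.Agent.H23.K4

/-- **family I**: `a₁ b₄ < a₄ b₁` -/
theorem noM3_famI {a b : ℕ → ℝ} (ha0 : 0 ≤ a 0) (ha1 : 0 ≤ a 1) (ha3 : 0 < a 3) (ha4 : 0 ≤ a 4) (hb0 : 0 ≤ b 0)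
    (hb1 : 0 ≤ b 1) (hb4 : 0 < b 4) (h14 : a 1 * b 4 < a 4 * b 1) : NoM3 a b :=
  noM3_I (fun g hb => noSys_I regF1a regF1b F2.regF2 F3.regF3 regF4 g hb) ha0 ha1 ha3 ha4 hb0 hb1 hb4 h14

end Pool.Agent.H30.M3
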