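import Pool.Agent.H30.M3.Bds

/-!
# The limit system of the mod three family: the abstract Lyapunov theorem

`V_k = W (shift k) / ρ_(k+c)^s` strictly decreasing in `k` on each orbit (forward in time: increasing) is impossible if
the record condition `ρ ≤ 1` holds: at the quasi records the window is in a compact set.
-/

namespace Pool.Agent.H30.M3

open Filter Topology

variable {a0 a1 a4 b0 b1 : ℝ} {p q : ℕ → ℝ}

/-- quasi records -/
theorem exists_quasi {ρ : ℕ → ℝ} (h0 : ∀ k, 0 < ρ k) (h1 : ∀ k, ρ k ≤ 1) (n : ℕ) : ∃ k, n ≤ k ∧ ∀ j, k ≤ j → ρ j ≤ 2 * ρ k := by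
  have hbd : BddAbove (Set.range fun j => ρ (n + j)) := ⟨1, by rintro _ ⟨j, rfl⟩; exact h1 _⟩
  have hS : 0 < ⨆ j, ρ (n + j) := lt_of_lt_of_le (h0 (n + 0)) (le_ciSup hbd 0)
  obtain ⟨j, hj⟩ := exists_lt_of_lt_ciSup (show (⨆ j, ρ (n + j)) / 2 < ⨆ j, ρ (n + j) by linarith)
  refine ⟨n + j, Nat.le_add_right _ _, fun i hi => ?_⟩
  obtain ⟨t, rfl⟩ := Nat.exists_eq_add_of_le ((Nat.le_add_right n j).trans hi)
  have h2 : ρ (n + t) ≤ ⨆ j, ρ (n + j) := le_ciSup hbd t
  linarith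

/-- limits along an ultrafilter -/
theorem exists_ulim {l : Ultrafilter ℕ} {x : ℕ → ℝ} {c C : ℝ} (h : ∀ i, c ≤ x i ∧ x i ≤ C) :
    ∃ y, c ≤ y ∧ Tendsto x l (𝓝 y) := by
  have hc : IsCompact (Set.Icc c C) := isCompact_Icc
  obtain ⟨y, hy, hy2⟩ := hc.ultrafilter_le_nhds (l.map x) (by
    rw [le_principal_iff, Ultrafilter.mem_coe, Ultrafilter.mem_map]
    exact Filter.univ_mem' fun i => h i)
  exact ⟨y, hy.1, hy2⟩

/-- the limit of orbits is an orbit -/
theorem PQ.lim {l : Ultrafilter ℕ} {P Q : ℕ → ℕ → ℝ} (h : ∀ i, PQ a0 a1 a4 b0 b1 (P i) (Q i))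
    (hp : ∀ k, 0 < p k) (hq : ∀ k, 0 < q k) (tp : ∀ j, Tendsto (fun i => P i j) l (𝓝 (p j)))
    (tq : ∀ j, Tendsto (fun i => Q i j) l (𝓝 (q j))) : PQ a0 a1 a4 b0 b1 p q where
  pp := hp
  qp := hq
  e2 := fun k => by
    have t1 : Tendsto (fun i => P i k * (b0 + b1 * Q i k + Q i (k + 1))) l
        (𝓝 (p k * (b0 + b1 * q k + q (k + 1)))) :=
      (tp k).mul ((tendsto_const_nhds.add ((tq k).const_mul b1)).add (tq (k + 1)))
    have t2 : Tendsto (fun i => a0 + a1 * Q i k + P i (k + 1) + a4 * Q i (k + 1)) l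
        (𝓝 (a0 + a1 * q k + p (k + 1) + a4 * q (k + 1))) :=
      ((tendsto_const_nhds.add ((tq k).const_mul a1)).add (tp (k + 1))).add ((tq (k + 1)).const_mul a4)
    have e : (fun i => P i k * (b0 + b1 * Q i k + Q i (k + 1))) =
        fun i => a0 + a1 * Q i k + P i (k + 1) + a4 * Q i (k + 1) := funext fun i => (h i).e2 k
    rw [e] at t1
    exact tendsto_nhds_unique t1 t2
  e3 := fun k => by
    have tE : Tendsto (fun i => b0 + b1 * P i (k + 1) + P i (k + 2)) l (𝓝 (b0 + b1 * p (k + 1) + p (k + 2))) :=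
      (tendsto_const_nhds.add ((tp (k + 1)).const_mul b1)).add (tp (k + 2))
    have t1 : Tendsto (fun i => Q i k * (b1 + (b0 + b1 * P i (k + 1) + P i (k + 2)))) l
        (𝓝 (q k * (b1 + (b0 + b1 * p (k + 1) + p (k + 2))))) := (tq k).mul (tendsto_const_nhds.add tE)
    have t2 : Tendsto (fun i => a1 + a4 * (b0 + b1 * P i (k + 1) + P i (k + 2))) l
        (𝓝 (a1 + a4 * (b0 + b1 * p (k + 1) + p (k + 2)))) := tendsto_const_nhds.add (tE.const_mul a4)
    have e : (fun i => Q i k * (b1 + (b0 + b1 * P i (k + 1) + P i (k + 2)))) =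
        fun i => a1 + a4 * (b0 + b1 * P i (k + 1) + P i (k + 2)) := funext fun i => (h i).e3 k
    rw [e] at t1
    exact tendsto_nhds_unique t1 t2

/-- **the abstract theorem** -/
theorem noSys_of_lyap (g : Good a0 a1 a4 b0 b1) (W : (ℕ → ℝ) → (ℕ → ℝ) → ℝ) (c s : ℕ)
    (hpos : ∀ p q, PQ a0 a1 a4 b0 b1 p q → 0 < W p q)
    (hcont : ∀ (l : Ultrafilter ℕ) (P Q : ℕ → ℕ → ℝ) (p q : ℕ → ℝ), PQ a0 a1 a4 b0 b1 p q →
      (∀ j, Tendsto (fun i => P i j) l (𝓝 (p j))) → (∀ j, Tendsto (fun i => Q i j) l (𝓝 (q j))) →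
      Tendsto (fun i => W (P i) (Q i)) l (𝓝 (W p q)))
    (hstep : ∀ p q, PQ a0 a1 a4 b0 b1 p q →
      W (fun k => p (k + 1)) (fun k => q (k + 1)) < W p q * (b0 + b1 * p c + p (c + 1)) ^ s) :
    NoSys a0 a1 a4 b0 b1 := by
  intro ρ p q h h0 h1 h2 h3
  choose κ hκ1 hκ2 using exists_quasi h1 h2
  set n : ℕ → ℕ := fun i => κ i + 1 with hn
  have hn1 : ∀ i, i ≤ n i := fun i => (hκ1 i).trans (Nat.le_succ _)
  have hPQ : ∀ k, PQ a0 a1 a4 b0 b1 (fun j => p (j + k)) (fun j => q (j + k)) := fun k => h.shift k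
  have hp2 : ∀ i, p (0 + n i) ≤ 2 := by
    intro i
    have e := h3 (κ i)
    have e2 := hκ2 i (κ i + 1) (Nat.le_succ _)
    rw [← e, mul_comm (2 : ℝ)] at e2
    have e3 := le_of_mul_le_mul_left e2 (h1 (κ i))
    have e4 := mul_nonneg g.b1n (h.pp (κ i)).le
    have e5 := g.b0n
    rw [zero_add]
    have e6 : n i = κ i + 1 := rfl
    rw [e6]
    linarith
  have hwin : ∀ j, ∃ x y : ℝ, 0 < x ∧ 0 < y ∧ Tendsto (fun i => p (j + n i)) (hyperfilter ℕ) (𝓝 x) ∧
      Tendsto (fun i => q (j + n i)) (hyperfilter ℕ) (𝓝 y) := by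
    intro j
    obtain ⟨c, C, hc, hw⟩ := window g j
    obtain ⟨x, hx, tx⟩ := exists_ulim (l := hyperfilter ℕ) (fun i => (hw _ _ (hPQ (n i)) (hp2 i)).1)
    obtain ⟨y, hy, ty⟩ := exists_ulim (l := hyperfilter ℕ) (fun i => (hw _ _ (hPQ (n i)) (hp2 i)).2)
    exact ⟨x, y, hc.trans_le hx, hc.trans_le hy, tx, ty⟩
  choose x y hx hy tx ty using hwin
  have hxy : PQ a0 a1 a4 b0 b1 x y := PQ.lim (l := hyperfilter ℕ) (fun i => hPQ (n i)) hx hy tx ty
  -- `V`
  set w : ℕ → ℝ := fun k => W (fun j => p (j + k)) (fun j => q (j + k)) with hw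
  have hwp : ∀ k, 0 < w k := fun k => hpos _ _ (hPQ k)
  set V : ℕ → ℝ := fun k => w k / ρ (k + c) ^ s with hV
  set E : ℕ → ℝ := fun k => b0 + b1 * p (k + c) + p (k + c + 1) with hE
  have hρE : ∀ k, ρ (k + 1 + c) = ρ (k + c) * E k := fun k => by
    have e : k + 1 + c = k + c + 1 := by ring
    rw [e, ← h3 (k + c)]
  have hstep' : ∀ k, w (k + 1) < w k * E k ^ s := by
    intro k
    have e := hstep _ _ (hPQ k)
    have e1 : (fun j => p (j + 1 + k)) = fun j => p (j + (k + 1)) := funext fun j => by ring_nf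
    have e2 : (fun j => q (j + 1 + k)) = fun j => q (j + (k + 1)) := funext fun j => by ring_nf
    have e3 : c + k = k + c := by ring
    have e4 : c + 1 + k = k + c + 1 := by ring
    simp only [e1, e2, e3, e4] at e
    exact e
  have hEp : ∀ k, 0 < E k := fun k => by
    have := h.E_gt g (k + c)
    have := g.b0n
    simp only [hE]
    linarith
  have hVanti : Antitone V := by
    refine antitone_nat_of_succ_le fun k => ?_
    simp only [hV]
    rw [hρE k, mul_pow, div_le_div_iff₀ (by have := h1 (k + c); have := hEp k; positivity) (by have := h1 (k + c); positivity)]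
    have e1 := mul_le_mul_of_nonneg_right (hstep' k).le (pow_nonneg (h1 (k + c)).le s)
    calc w (k + 1) * ρ (k + c) ^ s ≤ w k * E k ^ s * ρ (k + c) ^ s := e1
      _ = w k * (ρ (k + c) ^ s * E k ^ s) := by ring
  have hWx : 0 < W x y := hpos _ _ hxy
  have tw : Tendsto (fun i => w (n i)) (hyperfilter ℕ) (𝓝 (W x y)) :=
    hcont (hyperfilter ℕ) (fun i j => p (j + n i)) (fun i j => q (j + n i)) x y hxy tx ty
  have hxy1 := hxy.shift 1
  have tw1 : Tendsto (fun i => w (n i + 1)) (hyperfilter ℕ) (𝓝 (W (fun k => x (k + 1)) (fun k => y (k + 1)))) := by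
    have e1 : ∀ i, (fun j => p (j + (n i + 1))) = fun j => p (j + 1 + n i) := fun i => funext fun j => by ring_nf
    have e2 : ∀ i, (fun j => q (j + (n i + 1))) = fun j => q (j + 1 + n i) := fun i => funext fun j => by ring_nf
    have := hcont (hyperfilter ℕ) (fun i j => p (j + 1 + n i)) (fun i j => q (j + 1 + n i)) _ _ hxy1
      (fun j => tx (j + 1)) (fun j => ty (j + 1))
    simp only [hw, e1, e2]
    exact this
  have hVw : ∀ k, w k ≤ V k := by
    intro k
    simp only [hV]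
    rw [le_div_iff₀ (pow_pos (h1 _) s)]
    exact mul_le_of_le_one_right (hwp k).le (pow_le_one₀ (h1 _).le (h2 _))
  have hVlow : ∀ k, W x y / 2 ≤ V k := by
    intro k
    have ev : ∀ᶠ i in (hyperfilter ℕ : Filter ℕ), W x y / 2 < w (n i) := tw.eventually (lt_mem_nhds (by linarith))
    have ev2 : ∀ᶠ i in (hyperfilter ℕ : Filter ℕ), k ≤ i := by
      have : ∀ᶠ i in (atTop : Filter ℕ), k ≤ i := eventually_ge_atTop k
      exact (Nat.hyperfilter_le_atTop) this
    obtain ⟨i, hi1, hi2⟩ := (ev.and ev2).exists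
    exact hi1.le.trans ((hVw _).trans (hVanti (hi2.trans (hn1 i))))
  have hbd : BddBelow (Set.range V) := ⟨W x y / 2, by rintro _ ⟨k, rfl⟩; exact hVlow k⟩
  have tV : Tendsto V atTop (𝓝 (⨅ k, V k)) := tendsto_atTop_ciInf hVanti hbd
  have hL : 0 < ⨅ k, V k := lt_of_lt_of_le (by linarith) (le_ciInf hVlow)
  have hnt : Tendsto n (hyperfilter ℕ) atTop := by
    have : Tendsto n atTop atTop := tendsto_atTop_mono hn1 tendsto_id
    exact this.mono_left Nat.hyperfilter_le_atTop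
  have tV0 : Tendsto (fun i => V (n i)) (hyperfilter ℕ) (𝓝 (⨅ k, V k)) := tV.comp hnt
  have tV1 : Tendsto (fun i => V (n i + 1)) (hyperfilter ℕ) (𝓝 (⨅ k, V k)) :=
    (tV.comp (tendsto_add_atTop_nat 1)).comp hnt
  have tE : Tendsto (fun i => E (n i)) (hyperfilter ℕ) (𝓝 (b0 + b1 * x c + x (c + 1))) := by
    have e1 : (fun i => E (n i)) = fun i => b0 + b1 * p (c + n i) + p (c + 1 + n i) := funext fun i => by
      simp only [hE]
      have e3 : c + n i = n i + c := by ring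
      have e4 : c + 1 + n i = n i + c + 1 := by ring
      rw [e3, e4]
    rw [e1]
    exact (tendsto_const_nhds.add ((tx c).const_mul b1)).add (tx (c + 1))
  have hid : ∀ k, V (k + 1) * (w k * E k ^ s) = V k * w (k + 1) := by
    intro k
    simp only [hV]
    rw [hρE k, mul_pow]
    have i1 := (pow_pos (h1 (k + c)) s).ne'
    have i2 := (pow_pos (hEp k) s).ne'
    field_simp
  have t1 : Tendsto (fun i => V (n i + 1) * (w (n i) * E (n i) ^ s)) (hyperfilter ℕ)
      (𝓝 ((⨅ k, V k) * (W x y * (b0 + b1 * x c + x (c + 1)) ^ s))) := tV1.mul (tw.mul (tE.pow s))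
  have t2 : Tendsto (fun i => V (n i) * w (n i + 1)) (hyperfilter ℕ)
      (𝓝 ((⨅ k, V k) * W (fun k => x (k + 1)) (fun k => y (k + 1)))) := tV0.mul tw1
  have e : (fun i => V (n i + 1) * (w (n i) * E (n i) ^ s)) = fun i => V (n i) * w (n i + 1) := funext fun i => hid (n i)
  rw [e] at t1
  have e2 := mul_left_cancel₀ hL.ne' (tendsto_nhds_unique t1 t2)
  exact absurd (hstep x y hxy) (by rw [e2]; exact lt_irrefl _)

end Pool.Agent.H30.M3
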