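import Pool.Agent.H30.M3.Lyap

/-!
# The limit system of the mod three family: the concrete potentials

Forward time `t = -k`; `V_(t+1) > V_t` for `V = U`, `U / P`, `U H₁ / (P F₀ F₁)`, `U² H₁ / (F₀ F₁)²`, `U / (P F₀)`, `U / (P Z₁)`,
`U Z₀ / (F₀ P²)`. Each theorem reduces `NoSys` to one inequality between consecutive terms of an orbit.
-/

namespace Pool.Agent.H30.M3

open Filter Topology

variable {a0 a1 a4 b0 b1 : ℝ}

/-- `V = U` -/
theorem noSys_T0 (g : Good a0 a1 a4 b0 b1) (h : ∀ p q, PQ a0 a1 a4 b0 b1 p q → p 1 < p 0) : NoSys a0 a1 a4 b0 b1 := by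
  refine noSys_of_lyap g (fun p _ => p 0) 0 0 (fun p q hpq => hpq.pp 0) (fun l P Q p q hpq tp tq => tp 0) fun p q hpq => ?_
  simpa using h p q hpq

/-- `V = U / P` -/
theorem noSys_T1 (g : Good a0 a1 a4 b0 b1)
    (h : ∀ p q, PQ a0 a1 a4 b0 b1 p q → p 1 < p 0 * (b0 + b1 * p 0 + p 1)) : NoSys a0 a1 a4 b0 b1 := by
  refine noSys_of_lyap g (fun p _ => p 0) 0 1 (fun p q hpq => hpq.pp 0) (fun l P Q p q hpq tp tq => tp 0) fun p q hpq => ?_
  simpa using h p q hpq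

/-- `V = U H₁ / (P F₀ F₁)` -/
theorem noSys_T2 (g : Good a0 a1 a4 b0 b1)
    (h : ∀ p q, PQ a0 a1 a4 b0 b1 p q → p 3 * (b0 + (1 + b1) * q 2) * (b0 + b1 * q 0 + q 1) <
      (a0 + a1 * q 2 + p 3 + a4 * q 3) * (b0 + (1 + b1) * q 1) * (b0 + b1 * p 2 + p 3)) : NoSys a0 a1 a4 b0 b1 := by
  refine noSys_of_lyap g (fun p q => p 2 * (b0 + (1 + b1) * q 1) / ((b0 + b1 * q 1 + q 2) * (b0 + b1 * q 0 + q 1))) 2 1
    (fun p q hpq => ?_) (fun l P Q p q hpq tp tq => ?_) fun p q hpq => ?_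
  · have h1 := hpq.F_pos g 0
    have h2 := hpq.F_pos g 1
    have h3 := hpq.pp 2
    have h4 := hpq.qp 1
    have h5 := g.b0n
    have h6 := g.b1n
    simp only [zero_add] at h1
    have e : 1 + 1 = 2 := rfl
    rw [e] at h2
    positivity
  · have h1 := hpq.F_pos g 0
    have h2 := hpq.F_pos g 1
    simp only [zero_add] at h1
    have e : 1 + 1 = 2 := rfl
    rw [e] at h2
    refine Tendsto.div ((tp 2).mul (tendsto_const_nhds.add ((tq 1).const_mul _)))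
      (Tendsto.mul ((tendsto_const_nhds.add ((tq 1).const_mul b1)).add (tq 2))
      ((tendsto_const_nhds.add ((tq 0).const_mul b1)).add (tq 1))) (by positivity)
  · have h1 := hpq.F_pos g 0
    have h2 := hpq.F_pos g 1
    have h3 := hpq.F_pos g 2
    have h4 := h p q hpq
    rw [← hpq.e2 2] at h4
    simp only [zero_add, pow_one] at h1 ⊢
    have e : 1 + 1 = 2 := rfl
    have e' : 2 + 1 = 3 := rfl
    simp only [e, e'] at h2 h3 h4 ⊢
    rw [div_mul_eq_mul_div, div_lt_div_iff₀ (by positivity) (by positivity)]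
    have h5 := mul_lt_mul_of_pos_right h4 h2
    linarith

/-- `V = U² H₁ / (F₀ F₁)²` -/
theorem noSys_T3 (g : Good a0 a1 a4 b0 b1)
    (h : ∀ p q, PQ a0 a1 a4 b0 b1 p q → p 3 ^ 2 * (b0 + (1 + b1) * q 2) * (b0 + b1 * q 0 + q 1) ^ 2 <
      (a0 + a1 * q 2 + p 3 + a4 * q 3) ^ 2 * (b0 + (1 + b1) * q 1)) : NoSys a0 a1 a4 b0 b1 := by
  refine noSys_of_lyap g (fun p q => p 2 ^ 2 * (b0 + (1 + b1) * q 1) /
    ((b0 + b1 * q 1 + q 2) * (b0 + b1 * q 0 + q 1)) ^ 2) 0 0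
    (fun p q hpq => ?_) (fun l P Q p q hpq tp tq => ?_) fun p q hpq => ?_
  · have h1 := hpq.F_pos g 0
    have h2 := hpq.F_pos g 1
    have h3 := hpq.pp 2
    have h4 := hpq.qp 1
    have h5 := g.b0n
    have h6 := g.b1n
    simp only [zero_add] at h1
    have e : 1 + 1 = 2 := rfl
    rw [e] at h2
    positivity
  · have h1 := hpq.F_pos g 0
    have h2 := hpq.F_pos g 1
    simp only [zero_add] at h1
    have e : 1 + 1 = 2 := rfl
    rw [e] at h2
    refine Tendsto.div (((tp 2).pow 2).mul (tendsto_const_nhds.add ((tq 1).const_mul _)))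
      ((Tendsto.mul ((tendsto_const_nhds.add ((tq 1).const_mul b1)).add (tq 2))
      ((tendsto_const_nhds.add ((tq 0).const_mul b1)).add (tq 1))).pow 2) (by positivity)
  · have h1 := hpq.F_pos g 0
    have h2 := hpq.F_pos g 1
    have h3 := hpq.F_pos g 2
    have h4 := h p q hpq
    rw [← hpq.e2 2] at h4
    simp only [zero_add, pow_zero, mul_one] at h1 ⊢
    have e : 1 + 1 = 2 := rfl
    have e' : 2 + 1 = 3 := rfl
    simp only [e, e'] at h2 h3 h4 ⊢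
    rw [div_lt_div_iff₀ (by positivity) (by positivity)]
    have h5 := mul_lt_mul_of_pos_right h4 (pow_pos h2 2)
    calc p 3 ^ 2 * (b0 + (1 + b1) * q 2) * ((b0 + b1 * q 1 + q 2) * (b0 + b1 * q 0 + q 1)) ^ 2
        = p 3 ^ 2 * (b0 + (1 + b1) * q 2) * (b0 + b1 * q 0 + q 1) ^ 2 * (b0 + b1 * q 1 + q 2) ^ 2 := by ring
      _ < (p 2 * (b0 + b1 * q 2 + q 3)) ^ 2 * (b0 + (1 + b1) * q 1) * (b0 + b1 * q 1 + q 2) ^ 2 := h5
      _ = p 2 ^ 2 * (b0 + (1 + b1) * q 1) * ((b0 + b1 * q 2 + q 3) * (b0 + b1 * q 1 + q 2)) ^ 2 := by ring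

/-- `V = U / (P F₀)` -/
theorem noSys_T4 (g : Good a0 a1 a4 b0 b1)
    (h : ∀ p q, PQ a0 a1 a4 b0 b1 p q → p 2 * (b0 + b1 * q 0 + q 1) <
      (a0 + a1 * q 1 + p 2 + a4 * q 2) * (b0 + b1 * p 1 + p 2)) : NoSys a0 a1 a4 b0 b1 := by
  refine noSys_of_lyap g (fun p q => p 1 / (b0 + b1 * q 0 + q 1)) 1 1
    (fun p q hpq => ?_) (fun l P Q p q hpq tp tq => ?_) fun p q hpq => ?_
  · have h1 := hpq.F_pos g 0
    simp only [zero_add] at h1
    exact div_pos (hpq.pp 1) h1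
  · have h1 := hpq.F_pos g 0
    simp only [zero_add] at h1
    exact (tp 1).div ((tendsto_const_nhds.add ((tq 0).const_mul b1)).add (tq 1)) h1.ne'
  · have h1 := hpq.F_pos g 0
    have h2 := hpq.F_pos g 1
    have h4 := h p q hpq
    have e0 := hpq.e2 1
    simp only [zero_add, pow_one] at h1 ⊢
    have e : 1 + 1 = 2 := rfl
    simp only [e] at h2 h4 e0 ⊢
    rw [← e0] at h4
    rw [div_mul_eq_mul_div, div_lt_div_iff₀ (by positivity) (by positivity)]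
    linarith

/-- `V = U / (P Z₁)` -/
theorem noSys_T5 (g : Good a0 a1 a4 b0 b1)
    (h : ∀ p q, PQ a0 a1 a4 b0 b1 p q → p 2 * q 0 < p 1 * q 1 * (b0 + b1 * p 1 + p 2)) : NoSys a0 a1 a4 b0 b1 := by
  refine noSys_of_lyap g (fun p q => p 1 / q 0) 1 1
    (fun p q hpq => div_pos (hpq.pp 1) (hpq.qp 0)) (fun l P Q p q hpq tp tq => (tp 1).div (tq 0) (hpq.qp 0).ne')
    fun p q hpq => ?_
  have h1 := hpq.qp 0
  have h2 := hpq.qp 1
  have h4 := h p q hpq
  simp only [zero_add, pow_one]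
  have e : 1 + 1 = 2 := rfl
  simp only [e]
  rw [div_mul_eq_mul_div, div_lt_div_iff₀ h2 h1]
  linarith

/-- `V = U Z₀ / (F₀ P²)` -/
theorem noSys_T6 (g : Good a0 a1 a4 b0 b1)
    (h : ∀ p q, PQ a0 a1 a4 b0 b1 p q → p 2 * q 2 * (b0 + b1 * q 0 + q 1) <
      (a0 + a1 * q 1 + p 2 + a4 * q 2) * q 1 * (b0 + b1 * p 1 + p 2) ^ 2) : NoSys a0 a1 a4 b0 b1 := by
  refine noSys_of_lyap g (fun p q => p 1 * q 1 / (b0 + b1 * q 0 + q 1)) 1 2
    (fun p q hpq => ?_) (fun l P Q p q hpq tp tq => ?_) fun p q hpq => ?_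
  · have h1 := hpq.F_pos g 0
    simp only [zero_add] at h1
    exact div_pos (mul_pos (hpq.pp 1) (hpq.qp 1)) h1
  · have h1 := hpq.F_pos g 0
    simp only [zero_add] at h1
    exact ((tp 1).mul (tq 1)).div ((tendsto_const_nhds.add ((tq 0).const_mul b1)).add (tq 1)) h1.ne'
  · have h1 := hpq.F_pos g 0
    have h2 := hpq.F_pos g 1
    have h4 := h p q hpq
    have e0 := hpq.e2 1
    simp only [zero_add] at h1 ⊢
    have e : 1 + 1 = 2 := rfl
    simp only [e] at h2 h4 e0 ⊢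
    rw [← e0] at h4
    rw [div_mul_eq_mul_div, div_lt_div_iff₀ (by positivity) (by positivity)]
    linarith

end Pool.Agent.H30.M3
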